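import Mathlib

/-!
# Extremal ratio of convex hull areas of k-point subsets

The two-line configuration is not extremal when `k - 2` does not divide `n - 2`.
-/

open MeasureTheory Set

namespace Pool.Agent.Results.MP_ee40c7_co.UnevenSpacing

/-- The area (Lebesgue measure) of the convex hull of a finite planar set. -/
noncomputable def hullArea (A : Finset (ℝ × ℝ)) : ℝ :=
  (volume (convexHull ℝ (A : Set (ℝ × ℝ)))).toReal

/-- `T k S`: the largest area of the convex hull of a `k`-element subset of `S`. -/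
noncomputable def T (k : ℕ) (S : Finset (ℝ × ℝ)) : ℝ :=
  sSup {a : ℝ | ∃ A ⊆ S, A.card = k ∧ a = hullArea A}

/-- `t k S`: the smallest positive area of the convex hull of a `k`-element subset of `S`. -/
noncomputable def t (k : ℕ) (S : Finset (ℝ × ℝ)) : ℝ :=
  sInf {a : ℝ | ∃ A ⊆ S, A.card = k ∧ a = hullArea A ∧ 0 < a}

/-- `f k n`: the infimum of `T k S / t k S` over all `n`-point sets, not all on one line. -/
noncomputable def f (k n : ℕ) : ℝ :=
  sInf {r : ℝ | ∃ S : Finset (ℝ × ℝ), S.card = n ∧ ¬ Collinear ℝ (S : Set (ℝ × ℝ)) ∧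
    r = T k S / t k S}

/-- The set `S_n`: points `(0, j)` for `0 ≤ j ≤ ⌊(n-1)/2⌋` and `(1, j)` for
`0 ≤ j ≤ ⌊(n-2)/2⌋`. -/
noncomputable def twoLines (n : ℕ) : Finset (ℝ × ℝ) :=
  (Finset.range ((n - 1) / 2 + 1)).image (fun j : ℕ => ((0 : ℝ), (j : ℝ))) ∪
    (Finset.range ((n - 2) / 2 + 1)).image (fun j : ℕ => ((1 : ℝ), (j : ℝ)))

/-! ### Areas of trapezoids with two vertical sides -/

/-- closed trapezoid -/
def Reg (a b c d : ℝ) : Set (ℝ × ℝ) :=
  {p | 0 ≤ p.1 ∧ p.1 ≤ 1 ∧ (1 - p.1) * a + p.1 * c ≤ p.2 ∧ p.2 ≤ (1 - p.1) * b + p.1 * d}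

theorem measurableSet_Reg (a b c d : ℝ) : MeasurableSet (Reg a b c d) := by
  have e : Reg a b c d = {p : ℝ × ℝ | 0 ≤ p.1} ∩ ({p : ℝ × ℝ | p.1 ≤ 1} ∩
      ({p : ℝ × ℝ | (1 - p.1) * a + p.1 * c ≤ p.2} ∩
        {p : ℝ × ℝ | p.2 ≤ (1 - p.1) * b + p.1 * d})) := rfl
  have h1 : IsClosed {p : ℝ × ℝ | 0 ≤ p.1} := isClosed_le (by fun_prop) (by fun_prop)
  have h2 : IsClosed {p : ℝ × ℝ | p.1 ≤ 1} := isClosed_le (by fun_prop) (by fun_prop)
  have h3 : IsClosed {p : ℝ × ℝ | (1 - p.1) * a + p.1 * c ≤ p.2} :=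
    isClosed_le (by fun_prop) (by fun_prop)
  have h4 : IsClosed {p : ℝ × ℝ | p.2 ≤ (1 - p.1) * b + p.1 * d} :=
    isClosed_le (by fun_prop) (by fun_prop)
  rw [e]
  exact (h1.inter (h2.inter (h3.inter h4))).measurableSet

theorem volume_Reg {a b c d : ℝ} (hab : a ≤ b) (hcd : c ≤ d) :
    volume (Reg a b c d) = ENNReal.ofReal (((b - a) + (d - c)) / 2) := by
  rw [Measure.volume_eq_prod, Measure.prod_apply (measurableSet_Reg a b c d)]
  have hsl : ∀ x : ℝ, volume (Prod.mk x ⁻¹' Reg a b c d) =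
      (Icc (0 : ℝ) 1).indicator
        (fun x => ENNReal.ofReal ((1 - x) * (b - a) + x * (d - c))) x := by
    intro x
    by_cases hx : x ∈ Icc (0 : ℝ) 1
    · rw [indicator_of_mem hx]
      have : Prod.mk x ⁻¹' Reg a b c d =
          Icc ((1 - x) * a + x * c) ((1 - x) * b + x * d) := by
        ext y
        simp only [Reg, mem_preimage, mem_ofPred_eq, mem_Icc]
        constructor
        · rintro ⟨_, _, h1, h2⟩
          exact ⟨h1, h2⟩
        · rintro ⟨h1, h2⟩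
          exact ⟨hx.1, hx.2, h1, h2⟩
      rw [this, Real.volume_Icc]
      congr 1
      ring
    · rw [indicator_of_notMem hx]
      have : Prod.mk x ⁻¹' Reg a b c d = ∅ := by
        ext y
        simp only [Reg, mem_preimage, mem_ofPred_eq, mem_empty_iff_false, iff_false]
        rintro ⟨h1, h2, _, _⟩
        exact hx ⟨h1, h2⟩
      rw [this, measure_empty]
  simp_rw [hsl]
  rw [lintegral_indicator measurableSet_Icc]
  rw [← ofReal_integral_eq_lintegral_ofReal]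
  · congr 1
    rw [integral_Icc_eq_integral_Ioc, ← intervalIntegral.integral_of_le zero_le_one]
    have : ∀ x : ℝ, (1 - x) * (b - a) + x * (d - c) =
        (b - a) + x * ((d - c) - (b - a)) := by intro x; ring
    simp_rw [this]
    rw [intervalIntegral.integral_add (Continuous.intervalIntegrable (by fun_prop) _ _)
      (Continuous.intervalIntegrable (by fun_prop) _ _)]
    rw [intervalIntegral.integral_mul_const]
    simp
    ring
  · apply Continuous.integrableOn_Icc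
    fun_prop
  · rw [Filter.EventuallyLE, ae_restrict_iff' measurableSet_Icc]
    refine Filter.Eventually.of_forall fun x hx => ?_
    have h1 : 0 ≤ 1 - x := by linarith [hx.2]
    have h2 : 0 ≤ x := hx.1
    have h3 : 0 ≤ b - a := by linarith
    have h4 : 0 ≤ d - c := by linarith
    simp only [Pi.zero_apply]
    positivity

theorem convex_Reg (a b c d : ℝ) : Convex ℝ (Reg a b c d) := by
  rintro ⟨x, y⟩ ⟨h1, h2, h3, h4⟩ ⟨x', y'⟩ ⟨h1', h2', h3', h4'⟩ u v hu hv huv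
  simp only [Reg, mem_ofPred_eq, Prod.smul_mk, Prod.mk_add_mk, smul_eq_mul] at *
  have hv' : v = 1 - u := by linarith
  subst hv'
  refine ⟨by positivity, by nlinarith, ?_, ?_⟩
  · nlinarith [mul_le_mul_of_nonneg_left h3 hu, mul_le_mul_of_nonneg_left h3' hv]
  · nlinarith [mul_le_mul_of_nonneg_left h4 hu, mul_le_mul_of_nonneg_left h4' hv]

theorem Reg_subset_hull {a b c d : ℝ} {s : Set (ℝ × ℝ)}
    (ha : ((0 : ℝ), a) ∈ s) (hb : ((0 : ℝ), b) ∈ s) (hc : ((1 : ℝ), c) ∈ s)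
    (hd : ((1 : ℝ), d) ∈ s) : Reg a b c d ⊆ convexHull ℝ s := by
  rintro ⟨x, y⟩ ⟨h1, h2, h3, h4⟩
  simp only at h1 h2 h3 h4
  have hcv := convex_convexHull ℝ s
  set lo := (1 - x) * a + x * c with hlo
  set hi := (1 - x) * b + x * d with hhi
  have hplo : (x, lo) ∈ convexHull ℝ s := by
    have := hcv (subset_convexHull ℝ s ha) (subset_convexHull ℝ s hc)
      (by linarith : (0 : ℝ) ≤ 1 - x) h1 (by ring)
    simpa [hlo] using this
  have hphi : (x, hi) ∈ convexHull ℝ s := by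
    have := hcv (subset_convexHull ℝ s hb) (subset_convexHull ℝ s hd)
      (by linarith : (0 : ℝ) ≤ 1 - x) h1 (by ring)
    simpa [hhi] using this
  rcases (h3.trans h4).eq_or_lt with heq | hlt
  · have : y = lo := le_antisymm (heq ▸ h4) h3
    rw [this]; exact hplo
  · have hden : 0 < hi - lo := by linarith
    have := hcv hplo hphi
      (show (0 : ℝ) ≤ (hi - y) / (hi - lo) by apply div_nonneg <;> linarith)
      (show (0 : ℝ) ≤ (y - lo) / (hi - lo) by apply div_nonneg <;> linarith)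
      (by field_simp; ring)
    have e : ((hi - y) / (hi - lo)) • ((x, lo) : ℝ × ℝ) + ((y - lo) / (hi - lo)) • (x, hi)
        = (x, y) := by
      ext
      · simp only [Prod.smul_mk, Prod.mk_add_mk, smul_eq_mul]; field_simp; ring
      · simp only [Prod.smul_mk, Prod.mk_add_mk, smul_eq_mul]; field_simp; ring
    rwa [e] at this

theorem hull_volume_lt_top (A : Finset (ℝ × ℝ)) :
    volume (convexHull ℝ (A : Set (ℝ × ℝ))) < ⊤ :=
  (A.finite_toSet.isCompact_convexHull ℝ).measure_lt_top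

theorem hullArea_nonneg (A : Finset (ℝ × ℝ)) : 0 ≤ hullArea A := ENNReal.toReal_nonneg

theorem hullArea_le {a b c d : ℝ} (hab : a ≤ b) (hcd : c ≤ d) {A : Finset (ℝ × ℝ)}
    (hA : (A : Set (ℝ × ℝ)) ⊆ Reg a b c d) : hullArea A ≤ ((b - a) + (d - c)) / 2 := by
  have h := measure_mono (μ := volume) (convexHull_min hA (convex_Reg a b c d))
  rw [volume_Reg hab hcd] at h
  have h0 : 0 ≤ ((b - a) + (d - c)) / 2 := by linarith
  have := ENNReal.toReal_mono ENNReal.ofReal_ne_top h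
  rwa [ENNReal.toReal_ofReal h0] at this

theorem le_hullArea {a b c d : ℝ} (hab : a ≤ b) (hcd : c ≤ d) {A : Finset (ℝ × ℝ)}
    (ha : ((0 : ℝ), a) ∈ A) (hb : ((0 : ℝ), b) ∈ A) (hc : ((1 : ℝ), c) ∈ A)
    (hd : ((1 : ℝ), d) ∈ A) : ((b - a) + (d - c)) / 2 ≤ hullArea A := by
  have h := measure_mono (μ := volume) (Reg_subset_hull (s := (A : Set (ℝ × ℝ)))
    (by exact_mod_cast ha) (by exact_mod_cast hb) (by exact_mod_cast hc)
    (by exact_mod_cast hd))
  rw [volume_Reg hab hcd] at h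
  have h0 : 0 ≤ ((b - a) + (d - c)) / 2 := by linarith
  have := ENNReal.toReal_mono (hull_volume_lt_top A).ne h
  rwa [ENNReal.toReal_ofReal h0] at this

theorem hullArea_line {A : Finset (ℝ × ℝ)} (hA : ∀ p ∈ A, p.1 = 0) : hullArea A = 0 := by
  have hconv : Convex ℝ {p : ℝ × ℝ | p.1 = 0} := by
    intro x hx y hy u v _ _ _
    simp only [mem_ofPred_eq] at *
    simp [hx, hy]
  have h := measure_mono (μ := volume) (convexHull_min
    (s := (A : Set (ℝ × ℝ))) (t := {p : ℝ × ℝ | p.1 = 0})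
    (fun p hp => hA p (by exact_mod_cast hp)) hconv)
  have e : {p : ℝ × ℝ | p.1 = 0} = ({0} : Set ℝ) ×ˢ (univ : Set ℝ) := by
    ext p; simp
  rw [e, Measure.volume_eq_prod, Measure.prod_prod] at h
  simp only [Real.volume_singleton, zero_mul, nonpos_iff_eq_zero] at h
  simp [hullArea, Measure.volume_eq_prod, h]

/-! ### The configuration with uneven spacing -/

/-- heights on the line `x = 0` -/
noncomputable def ys (d : ℕ) (ε : ℝ) (i : ℕ) : ℝ := (1 - ε) * ((i / d : ℕ) : ℝ) + ε * i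

theorem ys_lt_succ {d : ℕ} {ε : ℝ} (h0 : 0 < ε) (h1 : ε ≤ 1) (i : ℕ) :
    ys d ε i < ys d ε (i + 1) := by
  have h : ((i / d : ℕ) : ℝ) ≤ (((i + 1) / d : ℕ) : ℝ) := by
    exact_mod_cast Nat.div_le_div_right (Nat.le_succ i)
  have h' := mul_le_mul_of_nonneg_left h (by linarith : (0 : ℝ) ≤ 1 - ε)
  simp only [ys]
  push_cast
  nlinarith

theorem ys_strictMono {d : ℕ} {ε : ℝ} (h0 : 0 < ε) (h1 : ε ≤ 1) : StrictMono (ys d ε) :=
  strictMono_nat_of_lt_succ (ys_lt_succ h0 h1)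

theorem ys_add {d : ℕ} (hd : 1 ≤ d) {ε : ℝ} (h0 : 0 < ε) (i : ℕ) :
    ys d ε i + 1 ≤ ys d ε (i + d) := by
  have h : (i + d) / d = i / d + 1 := Nat.add_div_right i (by omega)
  have hd' : (1 : ℝ) ≤ d := by exact_mod_cast hd
  simp only [ys, h]
  push_cast
  nlinarith

theorem ys_zero (d : ℕ) (ε : ℝ) : ys d ε 0 = 0 := by simp [ys]

/-- the configuration -/
noncomputable def conf (d : ℕ) (ε : ℝ) (n : ℕ) : Finset (ℝ × ℝ) :=
  insert ((1 : ℝ), (0 : ℝ)) ((Finset.range (n - 1)).image (fun i => ((0 : ℝ), ys d ε i)))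

theorem conf_card {d n : ℕ} {ε : ℝ} (h0 : 0 < ε) (h1 : ε ≤ 1) (hn : 1 ≤ n) :
    (conf d ε n).card = n := by
  rw [conf, Finset.card_insert_of_notMem (by simp), Finset.card_image_of_injective,
    Finset.card_range]
  · omega
  · intro i j hij
    exact (ys_strictMono h0 h1).injective (Prod.mk.inj hij).2

theorem conf_mem_zero {d n : ℕ} {ε : ℝ} {i : ℕ} (hi : i < n - 1) :
    ((0 : ℝ), ys d ε i) ∈ conf d ε n := by
  simp only [conf, Finset.mem_insert, Finset.mem_image, Finset.mem_range]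
  exact Or.inr ⟨i, hi, rfl⟩

theorem conf_subset_Reg {d n : ℕ} {ε : ℝ} (h0 : 0 < ε) (h1 : ε ≤ 1) :
    ((conf d ε n : Finset (ℝ × ℝ)) : Set (ℝ × ℝ)) ⊆ Reg 0 (ys d ε (n - 2)) 0 0 := by
  intro p hp
  simp only [conf, Finset.coe_insert, Finset.coe_image, Set.mem_insert_iff, Set.mem_image,
    Finset.coe_range, Set.mem_Iio] at hp
  rcases hp with rfl | ⟨i, hi, rfl⟩
  · simp [Reg]
  · have hm := (ys_strictMono (d := d) h0 h1).monotone
    have ha : 0 ≤ ys d ε i := by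
      have := hm (Nat.zero_le i); rwa [ys_zero] at this
    have hb : ys d ε i ≤ ys d ε (n - 2) := hm (by omega)
    simp [Reg, ha, hb]

theorem T_conf_le {k d n : ℕ} {ε : ℝ} (h0 : 0 < ε) (h1 : ε ≤ 1) :
    T k (conf d ε n) ≤ ys d ε (n - 2) / 2 := by
  have hy : 0 ≤ ys d ε (n - 2) := by
    have := (ys_strictMono (d := d) h0 h1).monotone (Nat.zero_le (n - 2)); rwa [ys_zero] at this
  apply Real.sSup_le
  · rintro a ⟨A, hA, -, rfl⟩
    have := hullArea_le (A := A) hy (le_refl (0 : ℝ))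
      ((by exact_mod_cast hA : (A : Set (ℝ × ℝ)) ⊆ (conf d ε n : Set (ℝ × ℝ))).trans
        (conf_subset_Reg h0 h1))
    linarith
  · linarith

theorem area_conf_ge {k n : ℕ} {ε : ℝ} (h0 : 0 < ε) (h1 : ε ≤ 1) (hk : 4 ≤ k)
    {A : Finset (ℝ × ℝ)} (hA : A ⊆ conf (k - 2) ε n) (hc : A.card = k)
    (hpos : 0 < hullArea A) : 1 / 2 ≤ hullArea A := by
  have hap : ((1 : ℝ), (0 : ℝ)) ∈ A := by
    by_contra hno
    have : hullArea A = 0 := by
      apply hullArea_line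
      intro p hp
      have hp' := hA hp
      simp only [conf, Finset.mem_insert, Finset.mem_image, Finset.mem_range] at hp'
      rcases hp' with rfl | ⟨i, _, rfl⟩
      · exact absurd hp hno
      · rfl
    linarith
  set I := (Finset.range (n - 1)).filter (fun i => ((0 : ℝ), ys (k - 2) ε i) ∈ A) with hI
  have himg : A.erase ((1 : ℝ), (0 : ℝ)) ⊆ I.image (fun i => ((0 : ℝ), ys (k - 2) ε i)) := by
    intro p hp
    rw [Finset.mem_erase] at hp
    have hp' := hA hp.2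
    simp only [conf, Finset.mem_insert, Finset.mem_image, Finset.mem_range] at hp'
    rcases hp' with rfl | ⟨i, hi, rfl⟩
    · exact absurd rfl hp.1
    · exact Finset.mem_image.2 ⟨i, by simp [hI, hi, hp.2], rfl⟩
  have hcard : k - 1 ≤ I.card := by
    have e1 := Finset.card_le_card himg
    rw [Finset.card_erase_of_mem hap, hc] at e1
    exact e1.trans Finset.card_image_le
  have hne : I.Nonempty := Finset.card_pos.1 (by omega)
  set i0 := I.min' hne
  set i1 := I.max' hne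
  have hsub : I ⊆ Finset.Icc i0 i1 := by
    intro i hi
    exact Finset.mem_Icc.2 ⟨I.min'_le i hi, I.le_max' i hi⟩
  have hle : k - 1 ≤ i1 + 1 - i0 := by
    have := Finset.card_le_card hsub
    rw [Nat.card_Icc] at this
    omega
  have hi01 : i0 + (k - 2) ≤ i1 := by omega
  have hm := (ys_strictMono (d := k - 2) h0 h1).monotone
  have hgap : ys (k - 2) ε i0 + 1 ≤ ys (k - 2) ε i1 :=
    (ys_add (by omega) h0 i0).trans (hm hi01)
  have m0 : ((0 : ℝ), ys (k - 2) ε i0) ∈ A := (Finset.mem_filter.1 (I.min'_mem hne)).2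
  have m1 : ((0 : ℝ), ys (k - 2) ε i1) ∈ A := (Finset.mem_filter.1 (I.max'_mem hne)).2
  have := le_hullArea (by linarith) (le_refl (0 : ℝ)) m0 m1 hap hap
  linarith

theorem exists_card_superset {k : ℕ} {B S : Finset (ℝ × ℝ)} (hB : B ⊆ S) (h1 : B.card ≤ k)
    (h2 : k ≤ S.card) : ∃ A, B ⊆ A ∧ A ⊆ S ∧ A.card = k := by
  obtain ⟨A, hA1, hA2, hA3⟩ := Finset.exists_subsuperset_card_eq hB h1 h2
  exact ⟨A, hA1, hA2, hA3⟩

theorem t_conf_ge {k n : ℕ} {ε : ℝ} (h0 : 0 < ε) (h1 : ε ≤ 1) (hk : 4 ≤ k) (hn : k ≤ n) :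
    1 / 2 ≤ t k (conf (k - 2) ε n) := by
  apply le_csInf
  · have hB : ({((1 : ℝ), (0 : ℝ)), ((0 : ℝ), ys (k - 2) ε 0),
        ((0 : ℝ), ys (k - 2) ε (n - 2))} : Finset (ℝ × ℝ)) ⊆ conf (k - 2) ε n := by
      intro p hp
      simp only [Finset.mem_insert, Finset.mem_singleton] at hp
      rcases hp with rfl | rfl | rfl
      · simp [conf]
      · exact conf_mem_zero (by omega)
      · exact conf_mem_zero (by omega)
    obtain ⟨A, hBA, hAS, hAc⟩ := exists_card_superset (k := k) hB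
      ((Finset.card_le_three).trans (by omega)) (by rw [conf_card h0 h1 (by omega)]; exact hn)
    refine ⟨hullArea A, A, hAS, hAc, rfl, ?_⟩
    have hgap : ys (k - 2) ε 0 < ys (k - 2) ε (n - 2) := ys_strictMono h0 h1 (by omega)
    have := le_hullArea (A := A) hgap.le (le_refl (0 : ℝ)) (hBA (by simp)) (hBA (by simp))
      (hBA (by simp)) (hBA (by simp))
    linarith
  · rintro a ⟨A, hAS, hAc, rfl, hpos⟩
    exact area_conf_ge h0 h1 hk hAS hAc hpos

theorem conf_not_collinear {k n : ℕ} {ε : ℝ} (h0 : 0 < ε) (h1 : ε ≤ 1) (hk : 4 ≤ k)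
    (hn : k ≤ n) : ¬ Collinear ℝ ((conf (k - 2) ε n : Finset (ℝ × ℝ)) : Set (ℝ × ℝ)) := by
  intro hcol
  have m0 : ((0 : ℝ), (0 : ℝ)) ∈ (conf (k - 2) ε n : Set (ℝ × ℝ)) := by
    have := conf_mem_zero (d := k - 2) (n := n) (ε := ε) (i := 0) (by omega)
    rw [ys_zero] at this
    exact_mod_cast this
  have m1 : ((0 : ℝ), ys (k - 2) ε 1) ∈ (conf (k - 2) ε n : Set (ℝ × ℝ)) := by
    exact_mod_cast conf_mem_zero (d := k - 2) (n := n) (ε := ε) (i := 1) (by omega)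
  have m2 : ((1 : ℝ), (0 : ℝ)) ∈ (conf (k - 2) ε n : Set (ℝ × ℝ)) := by simp [conf]
  have hy : 0 < ys (k - 2) ε 1 := by
    have := ys_strictMono (d := k - 2) h0 h1 (Nat.zero_lt_one); rwa [ys_zero] at this
  rw [collinear_iff_of_mem m0] at hcol
  obtain ⟨v, hv⟩ := hcol
  obtain ⟨r1, hr1⟩ := hv _ m1
  obtain ⟨r2, hr2⟩ := hv _ m2
  have a1 := congrArg Prod.fst hr1
  have a2 := congrArg Prod.snd hr1
  have b1 := congrArg Prod.fst hr2
  have b2 := congrArg Prod.snd hr2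
  simp at a1 a2 b1 b2
  rcases a1 with h | h
  · rw [h] at a2; simp at a2; linarith
  · rw [h] at b1; simp at b1

/-! ### The two-line configuration -/

theorem mem_twoLines {n : ℕ} {p : ℝ × ℝ} : p ∈ twoLines n ↔
    (∃ j : ℕ, j ≤ (n - 1) / 2 ∧ ((0 : ℝ), (j : ℝ)) = p) ∨
    (∃ j : ℕ, j ≤ (n - 2) / 2 ∧ ((1 : ℝ), (j : ℝ)) = p) := by
  simp only [twoLines, Finset.mem_union, Finset.mem_image, Finset.mem_range, Nat.lt_succ_iff]

theorem twoLines_card {n : ℕ} (hn : 2 ≤ n) : (twoLines n).card = n := by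
  rw [twoLines, Finset.card_union_of_disjoint, Finset.card_image_of_injective,
    Finset.card_image_of_injective, Finset.card_range, Finset.card_range]
  · omega
  · intro i j hij
    exact_mod_cast (Prod.mk.inj hij).2
  · intro i j hij
    exact_mod_cast (Prod.mk.inj hij).2
  · rw [Finset.disjoint_left]
    intro p hp hp'
    simp only [Finset.mem_image] at hp hp'
    obtain ⟨i, _, rfl⟩ := hp
    obtain ⟨j, _, hj⟩ := hp'
    simpa using (Prod.mk.inj hj).1

theorem twoLines_mono {k n : ℕ} (h : k ≤ n) : twoLines k ⊆ twoLines n := by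
  intro p hp
  rw [mem_twoLines] at *
  rcases hp with ⟨j, hj, e⟩ | ⟨j, hj, e⟩
  · exact Or.inl ⟨j, by omega, e⟩
  · exact Or.inr ⟨j, by omega, e⟩

theorem sum_half {n : ℕ} (hn : 2 ≤ n) :
    (((n - 1) / 2 : ℕ) : ℝ) + (((n - 2) / 2 : ℕ) : ℝ) = (n : ℝ) - 2 := by
  have h : (n - 1) / 2 + (n - 2) / 2 + 2 = n := by omega
  have : (((n - 1) / 2 : ℕ) : ℝ) + (((n - 2) / 2 : ℕ) : ℝ) + 2 = (n : ℝ) := by exact_mod_cast h
  linarith

theorem twoLines_subset_Reg {n : ℕ} : ((twoLines n : Finset (ℝ × ℝ)) : Set (ℝ × ℝ)) ⊆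
    Reg 0 (((n - 1) / 2 : ℕ) : ℝ) 0 (((n - 2) / 2 : ℕ) : ℝ) := by
  intro p hp
  rw [Finset.mem_coe, mem_twoLines] at hp
  rcases hp with ⟨j, hj, rfl⟩ | ⟨j, hj, rfl⟩
  · have : (j : ℝ) ≤ (((n - 1) / 2 : ℕ) : ℝ) := by exact_mod_cast hj
    simp only [Reg, mem_ofPred_eq]
    refine ⟨le_refl _, zero_le_one, ?_, ?_⟩
    · simp
    · simpa using this
  · have : (j : ℝ) ≤ (((n - 2) / 2 : ℕ) : ℝ) := by exact_mod_cast hj
    simp only [Reg, mem_ofPred_eq]
    refine ⟨zero_le_one, le_refl _, ?_, ?_⟩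
    · simp
    · simpa using this

theorem hullArea_twoLines_le {n : ℕ} (hn : 2 ≤ n) {A : Finset (ℝ × ℝ)}
    (hA : A ⊆ twoLines n) : hullArea A ≤ ((n : ℝ) - 2) / 2 := by
  have := hullArea_le (A := A) (Nat.cast_nonneg (α := ℝ) ((n - 1) / 2))
    (Nat.cast_nonneg (α := ℝ) ((n - 2) / 2))
    ((by exact_mod_cast hA : (A : Set (ℝ × ℝ)) ⊆ (twoLines n : Set (ℝ × ℝ))).trans
      twoLines_subset_Reg)
  have h := sum_half hn
  linarith

theorem corners_subset {n : ℕ} : ({((0 : ℝ), (0 : ℝ)), ((0 : ℝ), (((n - 1) / 2 : ℕ) : ℝ)),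
    ((1 : ℝ), (0 : ℝ)), ((1 : ℝ), (((n - 2) / 2 : ℕ) : ℝ))} : Finset (ℝ × ℝ)) ⊆ twoLines n := by
  intro p hp
  simp only [Finset.mem_insert, Finset.mem_singleton] at hp
  rw [mem_twoLines]
  rcases hp with rfl | rfl | rfl | rfl
  · exact Or.inl ⟨0, by omega, by simp⟩
  · exact Or.inl ⟨_, le_refl _, rfl⟩
  · exact Or.inr ⟨0, by omega, by simp⟩
  · exact Or.inr ⟨_, le_refl _, rfl⟩

theorem le_hullArea_of_corners {n : ℕ} (hn : 2 ≤ n) {A : Finset (ℝ × ℝ)}
    (hA : ({((0 : ℝ), (0 : ℝ)), ((0 : ℝ), (((n - 1) / 2 : ℕ) : ℝ)),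
      ((1 : ℝ), (0 : ℝ)), ((1 : ℝ), (((n - 2) / 2 : ℕ) : ℝ))} : Finset (ℝ × ℝ)) ⊆ A) :
    ((n : ℝ) - 2) / 2 ≤ hullArea A := by
  have := le_hullArea (A := A) (Nat.cast_nonneg (α := ℝ) ((n - 1) / 2))
    (Nat.cast_nonneg (α := ℝ) ((n - 2) / 2)) (hA (by simp)) (hA (by simp)) (hA (by simp))
    (hA (by simp))
  have h := sum_half hn
  linarith

theorem hullArea_twoLines {n : ℕ} (hn : 2 ≤ n) :
    hullArea (twoLines n) = ((n : ℝ) - 2) / 2 :=
  le_antisymm (hullArea_twoLines_le hn (Finset.Subset.refl _))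
    (le_hullArea_of_corners hn corners_subset)

theorem T_twoLines {k n : ℕ} (hk : 4 ≤ k) (hn : k ≤ n) :
    T k (twoLines n) = ((n : ℝ) - 2) / 2 := by
  have hn2 : (2 : ℝ) ≤ n := by exact_mod_cast (by omega : 2 ≤ n)
  apply le_antisymm
  · apply Real.sSup_le
    · rintro a ⟨A, hA, -, rfl⟩
      exact hullArea_twoLines_le (by omega) hA
    · linarith
  · obtain ⟨A, hBA, hAS, hAc⟩ := exists_card_superset (k := k) (corners_subset (n := n))
      ((Finset.card_le_four).trans hk) (by rw [twoLines_card (by omega)]; exact hn)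
    refine (le_hullArea_of_corners (by omega) hBA).trans ?_
    apply le_csSup
    · refine ⟨((n : ℝ) - 2) / 2, ?_⟩
      rintro a ⟨A, hA, -, rfl⟩
      exact hullArea_twoLines_le (by omega) hA
    · exact ⟨A, hAS, hAc, rfl⟩

theorem t_pos_of_nonempty {k : ℕ} {S : Finset (ℝ × ℝ)}
    (h : {a : ℝ | ∃ A ⊆ S, A.card = k ∧ a = hullArea A ∧ 0 < a}.Nonempty) : 0 < t k S := by
  have hfin : {a : ℝ | ∃ A ⊆ S, A.card = k ∧ a = hullArea A ∧ 0 < a}.Finite := by
    apply (S.powerset.finite_toSet.image hullArea).subset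
    rintro a ⟨A, hA, -, rfl, -⟩
    exact ⟨A, by simpa using hA, rfl⟩
  obtain ⟨A, -, -, -, hpos⟩ := h.csInf_mem hfin
  exact hpos

theorem t_twoLines {k n : ℕ} (hk : 4 ≤ k) (hn : k ≤ n) :
    0 < t k (twoLines n) ∧ t k (twoLines n) ≤ ((k : ℝ) - 2) / 2 := by
  have hk2 : (4 : ℝ) ≤ k := by exact_mod_cast hk
  have hmem : ((k : ℝ) - 2) / 2 ∈
      {a : ℝ | ∃ A ⊆ twoLines n, A.card = k ∧ a = hullArea A ∧ 0 < a} :=
    ⟨twoLines k, twoLines_mono hn, twoLines_card (by omega), (hullArea_twoLines (by omega)).symm,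
      by linarith⟩
  refine ⟨t_pos_of_nonempty ⟨_, hmem⟩, ?_⟩
  refine csInf_le ⟨0, ?_⟩ hmem
  rintro a ⟨A, -, -, -, hpos⟩
  exact hpos.le

theorem ratio_twoLines {k n : ℕ} (hk : 4 ≤ k) (hn : k ≤ n) :
    ((n : ℝ) - 2) / ((k : ℝ) - 2) ≤ T k (twoLines n) / t k (twoLines n) := by
  have hk2 : (4 : ℝ) ≤ k := by exact_mod_cast hk
  have hn2 : (k : ℝ) ≤ n := by exact_mod_cast hn
  obtain ⟨ht0, ht1⟩ := t_twoLines hk hn
  rw [T_twoLines hk hn, div_le_div_iff₀ (by linarith) ht0]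
  nlinarith

theorem f_bddBelow (k n : ℕ) : BddBelow {r : ℝ | ∃ S : Finset (ℝ × ℝ), S.card = n ∧
    ¬ Collinear ℝ (S : Set (ℝ × ℝ)) ∧ r = T k S / t k S} := by
  refine ⟨0, ?_⟩
  rintro r ⟨S, -, -, rfl⟩
  apply div_nonneg
  · apply Real.sSup_nonneg
    rintro a ⟨A, -, -, rfl⟩
    exact hullArea_nonneg A
  · apply Real.sInf_nonneg
    rintro a ⟨A, -, -, -, h⟩
    exact h.le

theorem f_le_eps {k n : ℕ} {ε : ℝ} (h0 : 0 < ε) (h1 : ε ≤ 1) (hk : 4 ≤ k) (hn : k ≤ n) :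
    f k n ≤ (((n - 2) / (k - 2) : ℕ) : ℝ) + ε * n := by
  have hmem := csInf_le (f_bddBelow k n)
    ⟨conf (k - 2) ε n, conf_card h0 h1 (by omega), conf_not_collinear h0 h1 hk hn, rfl⟩
  refine le_trans hmem ?_
  have hT := T_conf_le (k := k) (d := k - 2) (n := n) h0 h1
  have ht := t_conf_ge h0 h1 hk hn
  have hy : 0 ≤ ys (k - 2) ε (n - 2) := by
    have := (ys_strictMono (d := k - 2) h0 h1).monotone (Nat.zero_le (n - 2))
    rwa [ys_zero] at this
  have htpos : 0 < t k (conf (k - 2) ε n) := by linarith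
  have hy2 : ys (k - 2) ε (n - 2) ≤ (((n - 2) / (k - 2) : ℕ) : ℝ) + ε * n := by
    have hq : (0 : ℝ) ≤ (((n - 2) / (k - 2) : ℕ) : ℝ) := Nat.cast_nonneg _
    have hn' : ((n - 2 : ℕ) : ℝ) ≤ n := by exact_mod_cast Nat.sub_le n 2
    simp only [ys]
    nlinarith
  rw [div_le_iff₀ htpos]
  nlinarith

theorem f_le {k n : ℕ} (hk : 4 ≤ k) (hn : k ≤ n) : f k n ≤ (((n - 2) / (k - 2) : ℕ) : ℝ) := by
  apply le_of_forall_pos_le_add
  intro δ hδ
  have hn0 : (0 : ℝ) < n := by exact_mod_cast (by omega : 0 < n)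
  have h0 : 0 < min 1 (δ / n) := lt_min one_pos (div_pos hδ hn0)
  have h := f_le_eps h0 (min_le_left _ _) hk hn
  have h2 : min 1 (δ / n) * n ≤ δ := by
    have := mul_le_mul_of_nonneg_right (min_le_right 1 (δ / n)) hn0.le
    rwa [div_mul_cancel₀ _ hn0.ne'] at this
  linarith

/-- For every `k ≥ 4` the two-line configuration `S_n` does not attain the infimum `f(k,n)` for
all large `n`: in fact `f(k,n) ≤ ⌊(n-2)/(k-2)⌋` for all `n ≥ k`, and this is smaller than the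
ratio of `S_n` whenever `k - 2` does not divide `n - 2`. -/
theorem result (k : ℕ) (hk : 4 ≤ k) :
    (∀ n, k ≤ n → f k n ≤ (((n - 2) / (k - 2) : ℕ) : ℝ)) ∧
    (∀ n, k ≤ n → ¬ (k - 2) ∣ (n - 2) → f k n < T k (twoLines n) / t k (twoLines n)) ∧
    ¬ ∃ N, ∀ n, N ≤ n → f k n = T k (twoLines n) / t k (twoLines n) := by
  have main : ∀ n, k ≤ n → ¬ (k - 2) ∣ (n - 2) →
      f k n < T k (twoLines n) / t k (twoLines n) := by
    intro n hn hdvd
    refine lt_of_le_of_lt (f_le hk hn) (lt_of_lt_of_le ?_ (ratio_twoLines hk hn))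
    have hk2 : (4 : ℝ) ≤ k := by exact_mod_cast hk
    rw [lt_div_iff₀ (by linarith)]
    have h1 : (n - 2) / (k - 2) * (k - 2) < n - 2 := by
      rcases (Nat.div_mul_le_self (n - 2) (k - 2)).lt_or_eq with h | h
      · exact h
      · exact absurd (Dvd.intro_left _ h) hdvd
    have h2 : ((((n - 2) / (k - 2) * (k - 2) : ℕ)) : ℝ) < ((n - 2 : ℕ) : ℝ) := by
      exact_mod_cast h1
    rw [Nat.cast_mul, Nat.cast_sub (by omega : 2 ≤ k), Nat.cast_sub (by omega : 2 ≤ n)] at h2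
    simpa using h2
  refine ⟨fun n hn => f_le hk hn, main, ?_⟩
  rintro ⟨N, hN⟩
  have hge : N + 1 ≤ (k - 2) * (N + 1) := Nat.le_mul_of_pos_left _ (by omega)
  have hge2 : k - 2 ≤ (k - 2) * (N + 1) := Nat.le_mul_of_pos_right _ (by omega)
  have hnd : ¬ (k - 2) ∣ ((k - 2) * (N + 1) + 3 - 2) := by
    have e : (k - 2) * (N + 1) + 3 - 2 = (k - 2) * (N + 1) + 1 := by omega
    rw [e, Nat.dvd_add_right (Dvd.intro _ rfl)]
    intro h
    have := Nat.le_of_dvd one_pos h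
    omega
  have h := main ((k - 2) * (N + 1) + 3) (by omega) hnd
  rw [hN _ (by omega)] at h
  exact lt_irrefl _ h

end Pool.Agent.Results.MP_ee40c7_co.UnevenSpacing
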